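import Mathlib
import Pool.Agent.KS6_1.Oval.Classify
import Pool.Graph.R_seed8.Results.MP_5d0005_an.EveryEllipse

set_option autoImplicit false

/-!
# MP_5d0005_an : every strictly convex curve, with every cylinder of large height

Definitions (`Pool/Graph/R_seed8/H738R2/CylStmt.lean`): `StrictlyConvexCurve γ L`, `PhaseCylinder L`,
`Chord`, `IsBilliardMap γ L T₁`, `cylinderMap L d` (this is `T₂`), `IsRotationalInvariantCurve`,
`PartA`, `PartB`. Two more are in `Pool/Agent/KS6_1/Oval`:

* `IsCircle γ`: the points of the curve have the same distance from some point;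
* `ConstantAngle γ α`: every chord leaving the curve at the angle `α` arrives at the angle `α`
  (for `α = π/2` these are the curves of constant width).

The heights of the points `(s, α)` of the phase cylinder are measured by `cot α`.

The ingredients: for short chords `cot α₁ - cot α` is close to `-(2/3) k'/k²` (`k` the curvature), so
that it has both signs, uniformly, when the curve is not a circle; by an integral identity for the
signed distances of the ends of the arcs whose tangents turn by `2 α` from the chord directions, a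
circle `{α = const}` is never moved to one side by the billiard map, unless it is invariant; and a
path that winds around the cylinder in a thin strip has pieces whose images wind around the cylinder
in any prescribed strip nearby.
-/

namespace Pool.Agent.Results.MP_5d0005_an.EveryOval

open Set Pool.Agent.H738R2.Cyl Pool.Agent.KS6_1.Oval

/-- Some `z` has an orbit under `T = T₂ ∘ T₁` that follows the heights `V n` up to `w`. -/
def Follows {L : ℝ} (T : PhaseCylinder L → PhaseCylinder L) (w : ℝ) (V : ℕ → ℝ) : Prop :=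
  ∃ z : PhaseCylinder L, ∀ n, V n ≤ Real.cot ((T^[n] z).2 : ℝ) ∧ Real.cot ((T^[n] z).2 : ℝ) ≤ V n + w

lemma follows_of {γ : ℝ → ℂ} {L : ℝ} (h : StrictlyConvexCurve γ L)
    {T₁ : PhaseCylinder L → PhaseCylinder L} (hT : IsBilliardMap γ L T₁) {d w : ℝ} (hw : 0 < w)
    (hd : 3 * L ≤ d * w) (V : ℕ → ℝ) (hV : ∀ n, |V (n + 1) - V n| ≤ w)
    (hg : ∀ n, Good γ L w (V n)) : Follows (cylinderMap L d ∘ T₁) w V := by
  obtain ⟨s, hs⟩ := follow h hw hd V hV hg
  refine ⟨pj L (s, V 0), fun n => ?_⟩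
  have hsemi : Function.Semiconj (pj L) (TL γ L d) (cylinderMap L d ∘ T₁) :=
    fun p => (T_pj h hT d p).symm
  have h1 := (hsemi.iterate_right n) (s, V 0)
  rw [← h1]
  have h2 : Real.cot ((pj L ((TL γ L d)^[n] (s, V 0))).2 : ℝ) = ((TL γ L d)^[n] (s, V 0)).2 :=
    cot_acot _
  rw [h2]
  exact hs n

/-- **Every strictly convex curve.** Let `γ` be a `C^∞` strictly convex closed curve of length `L`
and `T = T₂ ∘ T₁` the map of the cylinder surface of height `d`.

1. If `α` is a constant angle of `γ`, then `{α = const}` is a rotational invariant curve of `T` for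
   every `d`. If `γ` has no constant angle, then for all large `d` the map `T` has no rotational
   invariant curve, and every sequence of heights with small steps is followed by an orbit. So `T`
   has no rotational invariant curve for all large `d` if and only if `γ` has no constant angle.
2. If `γ` is a circle then all angles are constant. If `γ` is not a circle, then there is a fixed
   neighbourhood of the boundary such that for all large `d` none of the two parts `{α < ε}`,
   `{α > π - ε}` of it contains a rotational invariant curve, and every sequence of heights in one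
   of them with small steps is followed by an orbit. So rotational invariant curves stay away from
   the two boundary components in this sense, for all large `d`, if and only if `γ` is not a circle.
3. Ellipses that are not circles have no constant angle.
4. Both parts of Q1 have a negative answer. -/
theorem result :
    (∀ (γ : ℝ → ℂ) (L : ℝ), StrictlyConvexCurve γ L →
      (∃ T₁, IsBilliardMap γ L T₁) ∧
      -- (1)
      (∀ α ∈ Ioo (0:ℝ) Real.pi, ConstantAngle γ α → ∀ d T₁, IsBilliardMap γ L T₁ →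
        IsRotationalInvariantCurve (cylinderMap L d ∘ T₁) {z | (z.2 : ℝ) = α}) ∧
      ((¬ ∃ α ∈ Ioo (0:ℝ) Real.pi, ConstantAngle γ α) →
        ∃ w > 0, ∀ d, 3 * L ≤ d * w → ∀ T₁, IsBilliardMap γ L T₁ →
          (¬ ∃ Γ, IsRotationalInvariantCurve (cylinderMap L d ∘ T₁) Γ) ∧
          ∀ V : ℕ → ℝ, (∀ n, |V (n + 1) - V n| ≤ w) → Follows (cylinderMap L d ∘ T₁) w V) ∧
      ((∃ d₀ : ℝ, ∀ d, d₀ ≤ d → ∀ T₁, IsBilliardMap γ L T₁ →
          ¬ ∃ Γ, IsRotationalInvariantCurve (cylinderMap L d ∘ T₁) Γ) ↔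
        ¬ ∃ α ∈ Ioo (0:ℝ) Real.pi, ConstantAngle γ α) ∧
      -- (2)
      (IsCircle γ → ∀ α ∈ Ioo (0:ℝ) Real.pi, ConstantAngle γ α) ∧
      (¬ IsCircle γ →
        ∃ w > 0, ∃ ε ∈ Ioo (0:ℝ) (Real.pi / 2), ∀ d, 3 * L ≤ d * w → ∀ T₁, IsBilliardMap γ L T₁ →
          (∀ Γ, IsRotationalInvariantCurve (cylinderMap L d ∘ T₁) Γ →
            (¬ ∀ z ∈ Γ, (z.2 : ℝ) < ε) ∧ ¬ ∀ z ∈ Γ, Real.pi - ε < (z.2 : ℝ)) ∧
          ∀ V : ℕ → ℝ, (∀ n, |V (n + 1) - V n| ≤ w) →
            ((∀ n, Real.cot ε ≤ V n) ∨ (∀ n, V n ≤ -Real.cot ε)) →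
            Follows (cylinderMap L d ∘ T₁) w V) ∧
      ((∃ d₀ : ℝ, ∃ ε > 0, ∀ d, d₀ ≤ d → ∀ T₁, IsBilliardMap γ L T₁ →
          ∀ Γ, IsRotationalInvariantCurve (cylinderMap L d ∘ T₁) Γ →
            (¬ ∀ z ∈ Γ, (z.2 : ℝ) < ε) ∧ ¬ ∀ z ∈ Γ, Real.pi - ε < (z.2 : ℝ)) ↔
        ¬ IsCircle γ)) ∧
    -- (3)
    (∀ a b : ℝ, 0 < b → b < a → ∃ (γ : ℝ → ℂ) (L : ℝ), StrictlyConvexCurve γ L ∧
      Set.range γ = {z : ℂ | (z.re / a) ^ 2 + (z.im / b) ^ 2 = 1} ∧
      ¬ ∃ α ∈ Ioo (0:ℝ) Real.pi, ConstantAngle γ α) ∧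
    -- (4)
    ¬ PartA ∧ ¬ PartB := by
  -- the constant angle part
  have hconst : ∀ (γ : ℝ → ℂ) (L : ℝ), StrictlyConvexCurve γ L →
      ∀ α ∈ Ioo (0:ℝ) Real.pi, ConstantAngle γ α → ∀ d T₁, IsBilliardMap γ L T₁ →
        IsRotationalInvariantCurve (cylinderMap L d ∘ T₁) {z | (z.2 : ℝ) = α} := by
    intro γ L h α hα hc d T₁ hT
    have e : acot (Real.cot α) = α := acot_cot hα
    have hn : ∀ s, nu γ L s (Real.cot α) = Real.cot α := by
      rw [← constantAngle_iff h, e]; exact hc
    have := level_invariant h hT d (Real.cot α) hn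
    rwa [e] at this
  have hcircle : ∀ (γ : ℝ → ℂ) (L : ℝ), StrictlyConvexCurve γ L → IsCircle γ →
      ∀ α ∈ Ioo (0:ℝ) Real.pi, ConstantAngle γ α := by
    intro γ L h hc α hα
    have e : acot (Real.cot α) = α := acot_cot hα
    rw [← e, constantAngle_iff h]
    exact fun s => nu_circle h hc s _
  have hpi := Real.pi_pos
  refine ⟨?_, ?_, ?_⟩
  · intro γ L h
    have hL := h.length_pos
    have hA : (¬ ∃ α ∈ Ioo (0:ℝ) Real.pi, ConstantAngle γ α) →
        ∃ w > 0, ∀ d, 3 * L ≤ d * w → ∀ T₁, IsBilliardMap γ L T₁ →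
          (¬ ∃ Γ, IsRotationalInvariantCurve (cylinderMap L d ∘ T₁) Γ) ∧
          ∀ V : ℕ → ℝ, (∀ n, |V (n + 1) - V n| ≤ w) → Follows (cylinderMap L d ∘ T₁) w V := by
      intro hno
      have hnc : ¬ IsCircle γ := fun hc => hno
        ⟨Real.pi / 2, ⟨by linarith, by linarith⟩, hcircle γ L h hc _ ⟨by linarith, by linarith⟩⟩
      have hu : ∀ u, ∃ s, nu γ L s u ≠ u := by
        intro u
        by_contra hcon
        push Not at hcon
        exact hno ⟨acot u, acot_mem u, (constantAngle_iff h u).mpr hcon⟩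
      obtain ⟨w, hw, hg⟩ := good_all h hnc hu
      refine ⟨w, hw, fun d hd T₁ hT => ⟨?_, fun V hV => follows_of h hT hw hd V hV fun n => hg _⟩⟩
      rintro ⟨Γ, hΓ⟩
      obtain ⟨B, hB⟩ := cot_bounds hΓ
      exact no_curve_between h hT (m := -B) (M := B) hw hd (fun W _ => hg W) hΓ
        (fun z hz => abs_lt.mp (hB z hz))
    have hBB : ¬ IsCircle γ →
        ∃ w > 0, ∃ ε ∈ Ioo (0:ℝ) (Real.pi / 2), ∀ d, 3 * L ≤ d * w → ∀ T₁, IsBilliardMap γ L T₁ →
          (∀ Γ, IsRotationalInvariantCurve (cylinderMap L d ∘ T₁) Γ →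
            (¬ ∀ z ∈ Γ, (z.2 : ℝ) < ε) ∧ ¬ ∀ z ∈ Γ, Real.pi - ε < (z.2 : ℝ)) ∧
          ∀ V : ℕ → ℝ, (∀ n, |V (n + 1) - V n| ≤ w) →
            ((∀ n, Real.cot ε ≤ V n) ∨ (∀ n, V n ≤ -Real.cot ε)) →
            Follows (cylinderMap L d ∘ T₁) w V := by
      intro hnc
      obtain ⟨w, hw, M, hM, hg1, hg2⟩ := far_good h hnc
      have hε : acot M ∈ Ioo (0:ℝ) (Real.pi / 2) := by
        refine ⟨(acot_mem M).1, ?_⟩
        unfold acot
        have := Real.arctan_pos.mpr hM
        linarith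
      refine ⟨w, hw, acot M, hε, fun d hd T₁ hT => ⟨fun Γ hΓ => ?_, fun V hV hVM => ?_⟩⟩
      · obtain ⟨B, hB⟩ := cot_bounds hΓ
        constructor
        · intro hcon
          apply no_curve_between h hT (m := M) (M := B) hw hd (fun W hW => hg1 W hW.1) hΓ
          intro z hz
          refine ⟨?_, (abs_lt.mp (hB z hz)).2⟩
          have := cot_anti z.2.2 (acot_mem M) (hcon z hz)
          rwa [cot_acot] at this
        · intro hcon
          apply no_curve_between h hT (m := -B) (M := -M) hw hd (fun W hW => hg2 W hW.2) hΓ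
          intro z hz
          refine ⟨(abs_lt.mp (hB z hz)).1, ?_⟩
          have e : Real.pi - acot M = acot (-M) := by
            unfold acot; rw [Real.arctan_neg]; ring
          have h3 := hcon z hz
          rw [e] at h3
          have := cot_anti (acot_mem (-M)) z.2.2 h3
          rwa [cot_acot] at this
      · apply follows_of h hT hw hd V hV
        intro n
        rw [cot_acot] at hVM
        rcases hVM with h1 | h1
        · exact hg1 _ (h1 n)
        · exact hg2 _ (h1 n)
    obtain ⟨T₁, hT₁⟩ := exists_billiardMap h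
    refine ⟨⟨T₁, hT₁⟩, hconst γ L h, hA, ⟨?_, ?_⟩, hcircle γ L h, hBB, ⟨?_, ?_⟩⟩
    · rintro ⟨d₀, hd₀⟩ ⟨α, hα, hc⟩
      exact hd₀ d₀ le_rfl T₁ hT₁ ⟨_, hconst γ L h α hα hc d₀ T₁ hT₁⟩
    · intro hno
      obtain ⟨w, hw, hA'⟩ := hA hno
      exact ⟨3 * L / w, fun d hd T₁ hT => (hA' d (by rwa [div_le_iff₀ hw] at hd) T₁ hT).1⟩
    · rintro ⟨d₀, ε, hε, hd₀⟩ hc
      set α := min (ε / 2) (Real.pi / 2) with hα
      have hα0 : 0 < α := lt_min (by linarith) (by linarith)
      have hαε : α < ε := lt_of_le_of_lt (min_le_left _ _) (by linarith)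
      have hαπ : α < Real.pi := lt_of_le_of_lt (min_le_right _ _) (by linarith)
      apply (hd₀ d₀ le_rfl T₁ hT₁ _
        (hconst γ L h α ⟨hα0, hαπ⟩ (hcircle γ L h hc α ⟨hα0, hαπ⟩) d₀ T₁ hT₁)).1
      intro z hz
      have : (z.2 : ℝ) = α := hz
      rw [this]; exact hαε
    · intro hnc
      obtain ⟨w, hw, ε, hε, hB'⟩ := hBB hnc
      exact ⟨3 * L / w, ε, hε.1, fun d hd T₁ hT => (hB' d (by rwa [div_le_iff₀ hw] at hd) T₁ hT).1⟩
  · intro a b hb hab
    obtain ⟨γ, L, h, hrange, ⟨T₁, hT₁⟩, hno⟩ :=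
      Pool.Agent.Results.MP_5d0005_an.EveryEllipse.result.1 a b hb hab
    refine ⟨γ, L, h, hrange, ?_⟩
    rintro ⟨α, hα, hc⟩
    have ha : 0 < a := hb.trans hab
    have hc0 : 0 < (a ^ 2 - b ^ 2) / (a * b) := by
      apply div_pos _ (by positivity)
      nlinarith
    set c := (a ^ 2 - b ^ 2) / (a * b) with hcdef
    have hL := h.length_pos
    have h1 := (hno (c / 2) (4 * L / c) (by linarith) (by linarith) (by
      have : 4 * L / c * (c / 2) = 2 * L := by field_simp; norm_num
      rw [this]) T₁ hT₁).1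
    exact h1 ⟨_, hconst γ L h α hα hc _ T₁ hT₁⟩
  · exact Pool.Agent.Results.MP_5d0005_an.EveryEllipse.result.2

end Pool.Agent.Results.MP_5d0005_an.EveryOval
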